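import Pool.Agent.Helper86.Ac.Goals

/-! Boolean tests on packed flags, in kernel-friendly form, and their soundness. -/

namespace Pool.Agent.Helper27.Ac

open Pool.Agent.Helper86.Ac Pool.Agent.Helper86.Acute

/-- digit `k` -/
def dg (a k : Nat) : Nat := Nat.land (Nat.shiftRight a (Nat.mul 48 k)) 281474976710655

theorem dg_eq (a k : Nat) : dg a k = a / 2 ^ (48 * k) % 2 ^ 48 := by
  unfold dg
  have h1 : Nat.land (Nat.shiftRight a (Nat.mul 48 k)) 281474976710655
      = (a >>> (48 * k)) &&& (2 ^ 48 - 1) := rfl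
  rw [h1, Nat.and_two_pow_sub_one_eq_mod, Nat.shiftRight_eq_div_pow]

/-- test for all numbers below `n` -/
def allN (n : Nat) (f : Nat → Bool) : Bool := Nat.rec true (fun k ih => and (f k) ih) n

theorem allN_spec {f : Nat → Bool} : ∀ {n : Nat}, allN n f = true → ∀ k, k < n → f k = true := by
  intro n
  induction n with
  | zero => intro _ k hk; omega
  | succ n ih =>
    intro h k hk
    have h' : (f n && allN n f) = true := h
    rw [Bool.and_eq_true] at h'
    rcases Nat.lt_succ_iff_lt_or_eq.1 hk with hk | rfl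
    · exact ih h'.2 k hk
    · exact h'.1

/-- correct packing of the first form -/
def goodA (f : F) : Bool :=
  and (Nat.beq (dg f.A 0) 1) (and (Nat.ble (Nat.shiftRight f.A 576) 1099511627775)
    (allN 11 fun k => Nat.ble (dg f.A (Nat.succ k)) 262144))

/-- correct packing of the second form -/
def goodC (f : F) : Bool :=
  and (Nat.beq (dg f.B 0) 1) (and (Nat.beq (Nat.shiftRight f.B 576) (Nat.shiftRight f.A 576))
    (allN 11 fun k => Nat.beq (dg f.B (Nat.succ k)) (dg f.A (Nat.sub 11 k))))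

/-- correct packing -/
def goodB (f : F) : Bool := and (goodA f) (goodC f)

theorem good_of_goodB {f : F} (h : goodB f = true) : Good f := by
  have h' : (goodA f && goodC f) = true := h
  rw [Bool.and_eq_true] at h'
  obtain ⟨hA, hC⟩ := h'
  have hA' : (Nat.beq (dg f.A 0) 1 && (Nat.ble (Nat.shiftRight f.A 576) 1099511627775 &&
    (allN 11 fun k => Nat.ble (dg f.A (Nat.succ k)) 262144))) = true := hA
  have hC' : (Nat.beq (dg f.B 0) 1 && (Nat.beq (Nat.shiftRight f.B 576) (Nat.shiftRight f.A 576) &&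
    (allN 11 fun k => Nat.beq (dg f.B (Nat.succ k)) (dg f.A (Nat.sub 11 k))))) = true := hC
  simp only [Bool.and_eq_true] at hA' hC'
  obtain ⟨a1, a2, a3⟩ := hA'
  obtain ⟨c1, c2, c3⟩ := hC'
  have a1' := Nat.eq_of_beq_eq_true a1
  have a2' : f.A >>> 576 ≤ 1099511627775 := Nat.le_of_ble_eq_true a2
  have c1' := Nat.eq_of_beq_eq_true c1
  have c2' : f.B >>> 576 = f.A >>> 576 := Nat.eq_of_beq_eq_true c2
  rw [dg_eq] at a1' c1'
  rw [Nat.shiftRight_eq_div_pow] at a2'
  rw [Nat.shiftRight_eq_div_pow, Nat.shiftRight_eq_div_pow] at c2'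
  refine ⟨by simpa using a1', ?_, ?_, by simpa using c1', c2', ?_⟩
  · have : (2 : ℕ) ^ 40 = 1099511627776 := by norm_num
    omega
  · intro k hk
    have h1 := Nat.le_of_ble_eq_true (allN_spec a3 k hk)
    rw [dg_eq] at h1
    have : (2 : ℕ) ^ 18 = 262144 := by norm_num
    rw [this]
    exact h1
  · intro k hk
    have h1 := Nat.eq_of_beq_eq_true (allN_spec c3 k hk)
    rw [dg_eq, dg_eq] at h1
    exact h1

/-- `acZ f + 11 * 2 ^ 35` -/
def acN (f : F) : Nat :=
  Nat.add (Nat.shiftRight f.A 576) (Nat.mul 131072 (Nat.add (Nat.add (Nat.add (Nat.add (Nat.add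
    (Nat.add (Nat.add (Nat.add (Nat.add (Nat.add (dg f.A 1) (dg f.A 2)) (dg f.A 3)) (dg f.A 4))
    (dg f.A 5)) (dg f.A 6)) (dg f.A 7)) (dg f.A 8)) (dg f.A 9)) (dg f.A 10)) (dg f.A 11)))

theorem rr_eq (f : F) (k : ℕ) : rr f k = (dg f.A (k + 1) : ℤ) - 2 ^ 17 := by
  rw [rr, dg_eq]

theorem acZ_eq (f : F) : acZ f = (acN f : ℤ) - 11 * 2 ^ 35 := by
  have h : acN f = (f.A >>> 576) + 131072 * (dg f.A 1 + dg f.A 2 + dg f.A 3 + dg f.A 4 +
    dg f.A 5 + dg f.A 6 + dg f.A 7 + dg f.A 8 + dg f.A 9 + dg f.A 10 + dg f.A 11) := rfl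
  rw [h, Nat.shiftRight_eq_div_pow]
  unfold acZ
  simp only [Finset.sum_range_succ, Finset.sum_range_zero, rr_eq]
  push_cast
  ring

/-- equality of flags -/
def eqF (f g : F) : Bool := and (Nat.beq f.A g.A) (Nat.beq f.B g.B)

theorem eq_of_eqF {f g : F} (h : eqF f g = true) : f = g := by
  have h' : (Nat.beq f.A g.A && Nat.beq f.B g.B) = true := h
  rw [Bool.and_eq_true] at h'
  cases f; cases g
  have h1 := Nat.eq_of_beq_eq_true h'.1
  have h2 := Nat.eq_of_beq_eq_true h'.2
  simp only at h1 h2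
  rw [h1, h2]

/-- `g` is `f` with the signs changed at the bits of `sg` -/
def flipB (sg : Nat) (f g : F) : Bool :=
  allN 11 fun k => Bool.casesOn (Nat.testBit sg k)
    (Nat.beq (dg g.A (Nat.succ k)) (dg f.A (Nat.succ k)))
    (Nat.beq (Nat.add (dg g.A (Nat.succ k)) (dg f.A (Nat.succ k))) 262144)

theorem flipB_spec {sg : Nat} {f g : F} (h : flipB sg f g = true) (k : ℕ) (hk : k < 11) :
    rr g k = sgn true sg k * rr f k := by
  have h1 := allN_spec h k hk
  simp only at h1
  rw [rr_eq, rr_eq, sgn, Bool.true_and]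
  cases hb : Nat.testBit sg k with
  | false =>
    rw [hb] at h1
    have h2 : dg g.A (k + 1) = dg f.A (k + 1) := Nat.eq_of_beq_eq_true h1
    rw [h2]
    simp
  | true =>
    rw [hb] at h1
    have h2 : dg g.A (k + 1) + dg f.A (k + 1) = 262144 := Nat.eq_of_beq_eq_true h1
    simp only [if_true]
    have h3 : (dg g.A (k + 1) : ℤ) + dg f.A (k + 1) = 262144 := by exact_mod_cast h2
    have : (2 : ℤ) ^ 17 = 131072 := by norm_num
    rw [this]
    linarith

end Pool.Agent.Helper27.Ac
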