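import Pool.Agent.Helper27.Ac.GoodB
import Pool.Agent.Helper86.Acute.Rules

/-! Packet PAY: facts on patterns of four points. -/

namespace Pool.Agent.Helper27.Ac

open Pool.Agent.Helper86.Ac Pool.Agent.Helper86.Acute

/-- two-pointed flag of the first two points -/
noncomputable def fl (s1 s2 s3 s4 : St) : F := (oL s1 s2 s3 s4).f01

/-- number of acute states, times `2 ^ 26` -/
def aN (s : St) : Nat := St.casesOn s 67108864 0 0 0

/-- some orientation pattern is realizable -/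
def anyOk (s1 s2 s3 s4 : St) : Bool :=
  !(allB fun b1 => allB fun b2 => allB fun b3 => allB fun b4 => !(ok4 s1 s2 s3 s4 b1 b2 b3 b4))

/-- the test for one code -/
noncomputable def payB (s1 s2 s3 s4 : St) : Bool :=
  goodB (fl s1 s2 s3 s4) &&
  eqF (oL s1 s2 s3 s4).f02 (fl (r23 s1) s3 s2 (r12 s4)) &&
  eqF (oL s1 s2 s3 s4).f12 (fl (r23 (r12 s1)) s4 (r12 s2) (r12 s3)) &&
  eqF (oL s1 s2 s3 s4).f03 (fl (r23 s2) (r23 s3) s1 (r12 (r23 s4))) &&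
  eqF (oL s1 s2 s3 s4).f13 (fl (r23 (r12 s2)) (r23 s4) (r12 s1) (r12 (r23 s3))) &&
  eqF (oL s1 s2 s3 s4).f23 (fl (r23 (r12 s3)) (r23 (r12 s4)) (r12 (r23 s1)) (r12 (r23 s2))) &&
  eqF (fl s1 s2 s3 s4) (fl s2 s1 (r23 s3) (r23 s4)) &&
  Nat.beq (acN (fl (r12 s1) (r12 s2) s4 s3)) (acN (fl s1 s2 s3 s4)) &&
  flipB sg0 (fl s1 s2 s3 s4) (fl (r12 s1) (r12 s2) s4 s3) &&
  Nat.ble 377957122048 (acN (fl s1 s2 s3 s4)) &&
  Nat.ble (acN (fl s1 s2 s3 s4)) 378225557504 &&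
  (!(anyOk s1 s2 s3 s4) || Nat.beq (acN (fl s1 s2 s3 s4))
    (377957122048 + (aN s1 + aN s2 + aN s3 + aN s4)))

theorem pay_chk : (all4 fun s1 => all4 fun s2 => all4 fun s3 => all4 fun s4 =>
    payB s1 s2 s3 s4) = true := by
  decide +kernel

theorem aN_eq (s : St) : (aN s : ℤ) = 2 ^ 26 * isA s := by
  cases s <;> norm_num [aN, isA]

theorem pay : PayStmt := by
  intro s1 s2 s3 s4
  have h := all4_spec (all4_spec (all4_spec (all4_spec pay_chk s1) s2) s3) s4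
  unfold payB at h
  simp only [Bool.and_eq_true] at h
  obtain ⟨⟨⟨⟨⟨⟨⟨⟨⟨⟨⟨h1, h2⟩, h3⟩, h4⟩, h5⟩, h6⟩, h7⟩, h8⟩, h9⟩, h10⟩, h11⟩, h12⟩ := h
  have e10 : 377957122048 ≤ acN (fl s1 s2 s3 s4) := Nat.le_of_ble_eq_true h10
  have e11 : acN (fl s1 s2 s3 s4) ≤ 378225557504 := Nat.le_of_ble_eq_true h11
  have e8 : acN (fl (r12 s1) (r12 s2) s4 s3) = acN (fl s1 s2 s3 s4) := Nat.eq_of_beq_eq_true h8
  have k1 : (11 : ℤ) * 2 ^ 35 = 377957122048 := by norm_num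
  have k2 : (2 : ℤ) ^ 28 = 268435456 := by norm_num
  refine ⟨good_of_goodB h1, eq_of_eqF h2, eq_of_eqF h3, eq_of_eqF h4, eq_of_eqF h5,
    eq_of_eqF h6, eq_of_eqF h7, ?_, fun k hk => flipB_spec h9 k hk, ?_, ?_, ?_⟩
  · show acZ (fl (r12 s1) (r12 s2) s4 s3) = acZ (fl s1 s2 s3 s4)
    rw [acZ_eq, acZ_eq, e8]
  · show 0 ≤ acZ (fl s1 s2 s3 s4)
    rw [acZ_eq, k1]; omega
  · show acZ (fl s1 s2 s3 s4) ≤ 2 ^ 28
    rw [acZ_eq, k1, k2]; omega
  · intro b1 b2 b3 b4 hb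
    show acZ (fl s1 s2 s3 s4) = _
    have hany : anyOk s1 s2 s3 s4 = true := by
      unfold anyOk
      rw [Bool.not_eq_true', ← Bool.not_eq_true]
      intro hall
      have := allB_spec (allB_spec (allB_spec (allB_spec hall b1) b2) b3) b4
      rw [hb] at this
      exact absurd this (by decide)
    rw [hany] at h12
    simp only [Bool.not_true, Bool.false_or] at h12
    have e12 : acN (fl s1 s2 s3 s4) = 377957122048 + (aN s1 + aN s2 + aN s3 + aN s4) :=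
      Nat.eq_of_beq_eq_true h12
    rw [acZ_eq, e12, k1]
    push_cast
    rw [aN_eq, aN_eq, aN_eq, aN_eq]
    ring

end Pool.Agent.Helper27.Ac
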